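import Pool.Agent.Helper54.CY.II
import Pool.Agent.Helper89.Cyl.Weights

/-!
# The combinatorial identity of project CY for commutative groups
-/

set_option autoImplicit false

open scoped BigOperators

namespace Pool.Agent.Helper54.CY

theorem comb_comm {P : Type*} [CommGroup P] [Fintype P] [DecidableEq P] (V : P → Finset P → ℝ)
    (H1 : ∀ π ω B, π * ω ∈ B → V π (insert ω B) = V π B)
    (H2 : ∀ (Q : Subgroup P) (Z Y : Finset P), (∀ q ∈ Q, ∀ z ∈ Z, q * z ∈ Z) → Disjoint Y Z →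
      (∀ y ∈ Y, ∀ y' ∈ Y, ∀ q ∈ Q, q * y = y' → y = y') → Y.Nonempty →
      0 ≤ ∑ᶠ π : Q, ∑ B ∈ Y.powerset, (-1 : ℝ) ^ B.card * V π (Z ∪ B)) :
    0 ≤ ∑ π : P, (V π ∅ - V π Finset.univ) := by
  classical
  obtain ⟨c, hc0, hc1, hc2, hc3⟩ := Pool.Agent.Helper89.Cyl.exists_weights P
  have : Fintype (Subgroup P) := Fintype.ofFinite _
  have htot : ∀ π, V π ∅ - V π Finset.univ
      = ∑ F ∈ Finset.univ.filter (fun F : Finset P => F.Nonempty), cyT (V π) F := by
    intro π
    have h0 := cy_T1 (V π) _ ∅ ∅ (Finset.disjoint_empty_left _) rfl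
    simp only [Finset.powerset_empty, Finset.sum_singleton, Finset.card_empty, pow_zero, one_mul,
      Finset.union_empty] at h0
    have h1 : cyT (V π) ∅ = V π Finset.univ := by
      unfold cyT
      simp
    have h2 : (Finset.univ.filter (fun F : Finset P => ∅ ⊆ F ∧ Disjoint F ∅))
        = insert ∅ (Finset.univ.filter (fun F : Finset P => F.Nonempty)) := by
      ext F
      simp only [Finset.mem_filter, Finset.mem_univ, true_and, Finset.mem_insert,
        Finset.empty_subset, Finset.disjoint_empty_right, and_self]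
      rcases Finset.eq_empty_or_nonempty F with h | h
      · simp [h]
      · simp [h]
    rw [h0, h2, Finset.sum_insert (by simp), h1]
    ring
  rw [Finset.sum_congr rfl (fun π _ => htot π), Finset.sum_comm]
  -- the condition on `(Q, Y, F)`
  have hvan : ∀ (Q : Subgroup P) (Y F : Finset P), Y ⊆ F →
      (∀ x ∈ F, ∃ q ∈ Q, ∃ y ∈ Y, x = q * y) →
      c Q Y * ∑ π : P, cyT (V π) F
        = c Q Y * ∑ π ∈ Finset.univ.filter (fun π : P => π ∈ Q), cyT (V π) F := by
    intro Q Y F hYF hFY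
    by_cases h : c Q Y = 0
    · rw [h, zero_mul, zero_mul]
    congr 1
    symm
    apply Finset.sum_subset (Finset.subset_univ _)
    intro π _ hπ
    have hπ' : π ∉ Q := by simpa using hπ
    by_contra hne
    apply hπ'
    apply hc2 Q Y h π
    intro y hy
    by_cases hst : ∀ ω ∈ F, π * ω ∈ F
    · exact hFY _ (hst y (hYF hy))
    · exfalso
      push Not at hst
      obtain ⟨ω, hω, hn⟩ := hst
      exact hne (cy_T0 (V π) F ω hω (fun B hB => H1 π ω B (hB (Finset.mem_compl.mpr hn))))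
  have hins : ∀ F ∈ Finset.univ.filter (fun F : Finset P => F.Nonempty),
      ∑ π : P, cyT (V π) F = ∑ Q : Subgroup P, ∑ Y : Finset P,
        if (Y ⊆ F ∧ ∀ x ∈ F, ∃ q ∈ Q, ∃ y ∈ Y, x = q * y) then
          c Q Y * ∑ π ∈ Finset.univ.filter (fun π : P => π ∈ Q), cyT (V π) F else 0 := by
    intro F hF
    have h1 := hc3 F (Finset.mem_filter.mp hF).2
    rw [finsum_eq_sum_of_fintype] at h1
    rw [← one_mul (∑ π : P, cyT (V π) F), ← h1, Finset.sum_mul]
    refine Finset.sum_congr rfl fun Q _ => ?_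
    rw [Finset.sum_mul, ← Finset.sum_filter]
    have h2 : (F.powerset.filter (fun Y => ∀ x ∈ F, ∃ q ∈ Q, ∃ y ∈ Y, x = q * y))
        = Finset.univ.filter (fun Y : Finset P => Y ⊆ F ∧
          ∀ x ∈ F, ∃ q ∈ Q, ∃ y ∈ Y, x = q * y) := by
      ext Y
      simp only [Finset.mem_filter, Finset.mem_powerset, Finset.mem_univ, true_and]
    rw [h2]
    refine Finset.sum_congr rfl fun Y hY => ?_
    have hY' := (Finset.mem_filter.mp hY).2
    exact hvan Q Y F hY'.1 hY'.2
  rw [Finset.sum_congr rfl hins, Finset.sum_comm]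
  apply Finset.sum_nonneg
  intro Q _
  rw [Finset.sum_comm]
  apply Finset.sum_nonneg
  intro Y _
  rw [← Finset.sum_filter, Finset.filter_filter]
  by_cases h0 : c Q Y = 0
  · apply Finset.sum_nonneg
    intro F _
    rw [h0, zero_mul]
  rcases Finset.eq_empty_or_nonempty Y with hYe | hYn
  · have : Finset.univ.filter (fun F : Finset P => F.Nonempty ∧
        (Y ⊆ F ∧ ∀ x ∈ F, ∃ q ∈ Q, ∃ y ∈ Y, x = q * y)) = ∅ := by
      rw [Finset.filter_eq_empty_iff]
      rintro F _ ⟨⟨x, hx⟩, _, h⟩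
      obtain ⟨q, _, y, hy, _⟩ := h x hx
      rw [hYe] at hy
      exact absurd hy (Finset.notMem_empty y)
    rw [this, Finset.sum_empty]
  rw [← Finset.mul_sum]
  apply mul_nonneg (hc0 Q Y)
  have memH : ∀ x, x ∈ hull Q Y ↔ ∃ q ∈ Q, ∃ y ∈ Y, x = q * y := mem_hull Q Y
  have hYE : Y ⊆ hull Q Y := by
    intro y hy
    rw [memH]
    exact ⟨1, Q.one_mem, y, hy, (one_mul y).symm⟩
  have hset : Finset.univ.filter (fun F : Finset P => F.Nonempty ∧
        (Y ⊆ F ∧ ∀ x ∈ F, ∃ q ∈ Q, ∃ y ∈ Y, x = q * y))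
      = Finset.univ.filter (fun F : Finset P => Y ⊆ F ∧ Disjoint F (hull Q Y)ᶜ) := by
    ext F
    simp only [Finset.mem_filter, Finset.mem_univ, true_and]
    rw [← Finset.subset_compl_iff_disjoint_right, compl_compl]
    constructor
    · rintro ⟨_, h1, h2⟩
      exact ⟨h1, fun x hx => (memH x).mpr (h2 x hx)⟩
    · rintro ⟨h1, h2⟩
      exact ⟨hYn.mono h1, h1, fun x hx => (memH x).mp (h2 hx)⟩
  have hdis : Disjoint Y (hull Q Y)ᶜ := by
    rw [← Finset.subset_compl_iff_disjoint_right, compl_compl]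
    exact hYE
  have Est : ∀ q ∈ Q, ∀ x ∈ hull Q Y, q * x ∈ hull Q Y := by
    intro q hq x hx
    rw [memH] at hx ⊢
    obtain ⟨q', hq', x', hx', rfl⟩ := hx
    exact ⟨q * q', Q.mul_mem hq hq', x', hx', by rw [mul_assoc]⟩
  rw [hset, Finset.sum_comm]
  have h2 := H2 Q (hull Q Y)ᶜ Y ?_ hdis (hc1 Q Y h0) hYn
  · have : Fintype Q := Fintype.ofFinite Q
    rw [finsum_eq_sum_of_fintype] at h2
    rw [Finset.sum_subtype (p := fun π => π ∈ Q) _ (fun x => by simp)]
    have h3 : ∀ π : Q, ∑ F ∈ Finset.univ.filter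
        (fun F : Finset P => Y ⊆ F ∧ Disjoint F (hull Q Y)ᶜ), cyT (V π) F
        = ∑ B ∈ Y.powerset, (-1 : ℝ) ^ B.card * V π ((hull Q Y)ᶜ ∪ B) := fun π =>
      (cy_T1 (V π) _ Y (hull Q Y)ᶜ hdis rfl).symm
    simp_rw [h3]
    exact h2
  · intro q hq z hz
    rw [Finset.mem_compl] at hz ⊢
    intro h
    apply hz
    have := Est q⁻¹ (Q.inv_mem hq) _ h
    rwa [inv_mul_cancel_left] at this

end Pool.Agent.Helper54.CY
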