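import Pool.Agent.Helper3.Cyc.E
import Pool.Agent.Helper54.CY.Comm

/-!
# The Dedekind inequality for commutative subgroups of order prime to the orders of the
automorphism groups of the nonabelian composition factors (project CY, MP_9fc8a5_nt)

The reduction is the one of `Pool/Agent/Helper3/Cyc/E.lean` (helper3), with `comb_comm`.
-/

set_option autoImplicit false

open scoped BigOperators

namespace Pool.Agent.Helper54.CY

open Pool.Agent.Helper13.Ded Pool.Agent.Helper3.Cyc

theorem ded_wreath_comm {X P : Type*} [Group X] [CommGroup P] [Finite X] [Finite P]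
    (θ : RegularWreathProduct X P → ℝ) (hθ : HP θ) :
    av θ ≤ av (fun p : P => θ ⟨1, p⟩) := by
  classical
  have := Fintype.ofFinite X
  have := Fintype.ofFinite P
  have h := comb_comm (Vf θ) (fun π ω B h => Vf_insert θ hθ.conj π ω B h)
    (fun Q Z Y h1 h2 h3 h4 => Vf_pos θ hθ Q Z Y h1 h2 h3 h4)
  rw [Vf_univ]
  unfold av
  rw [finsum_eq_sum_of_fintype]
  simp_rw [Vf_empty, Finset.sum_sub_distrib] at h
  exact div_le_div_of_nonneg_right (by linarith) (Nat.cast_nonneg _)

/-- From a surjection of a wreath product with commutative top group. -/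
theorem ded_of_wreath_comm {G : Type*} [Group G] [Finite G] (S H : Subgroup G)
    (hH : ∀ a ∈ H, ∀ b ∈ H, a * b = b * a)
    (Φ : RegularWreathProduct S H →* G) (h1 : ∀ h : H, Φ ⟨1, h⟩ = h)
    (h2 : Function.Surjective Φ) : Ded H := by
  intro θ hθ
  let IH : CommGroup H := { (inferInstance : Group H) with
    mul_comm := fun a b => Subtype.ext (hH a.1 a.2 b.1 b.2) }
  have h3 := @ded_wreath_comm S H _ IH _ _ (fun w => θ (Φ w)) (hθ.comp Φ)
  rw [av_comp_surj Φ h2] at h3
  simpa [h1] using h3

theorem ded_comm_aux.{u} (n : ℕ) : ∀ (G : Type u) [Group G] [Finite G], Nat.card G = n →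
    ∀ H : Subgroup G, (∀ a ∈ H, ∀ b ∈ H, a * b = b * a) → ∀ m : ℕ, Nat.card H ∣ m →
      Cop G m → Ded H := by
  classical
  induction n using Nat.strong_induction_on with
  | _ n ih =>
    intro G _ _ hn H hHc m hm hcop
    by_cases hH : H = ⊤
    · subst hH
      exact ded_top
    -- quotients
    have hquot : ∀ N : Subgroup G, N.Normal → N ≠ ⊥ → Ded (N ⊔ H) := by
      intro N hNn hNb
      have hcardN : 1 < Nat.card N := by
        rw [Finite.one_lt_card_iff_nontrivial]
        exact (Subgroup.nontrivial_iff_ne_bot N).mpr hNb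
      have hlt : Nat.card (G ⧸ N) < n := by
        have h1 := Subgroup.card_eq_card_quotient_mul_card_subgroup N
        have h2 : 0 < Nat.card (G ⧸ N) := Nat.card_pos
        rw [← hn, h1]
        nlinarith
      have hc : ∀ a ∈ H.map (QuotientGroup.mk' N), ∀ b ∈ H.map (QuotientGroup.mk' N),
          a * b = b * a := by
        rintro _ ⟨a, ha, rfl⟩ _ ⟨b, hb, rfl⟩
        rw [← map_mul, ← map_mul, hHc a ha b hb]
      have hd : Nat.card (H.map (QuotientGroup.mk' N)) ∣ m :=
        (Subgroup.card_dvd_of_surjective ((QuotientGroup.mk' N).subgroupMap H)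
          ((QuotientGroup.mk' N).subgroupMap_surjective H)).trans hm
      have h1 := ih _ hlt (G ⧸ N) rfl (H.map (QuotientGroup.mk' N)) hc m hd
        (hcop.of_surj _ (QuotientGroup.mk'_surjective N))
      have h2 := ded_comap (QuotientGroup.mk' N) (QuotientGroup.mk'_surjective N) _ h1
      rwa [Subgroup.comap_map_eq, QuotientGroup.ker_mk', sup_comm] at h2
    -- a central element of `H`
    by_cases hcen : ∃ h ∈ H, (∀ g : G, g * h = h * g) ∧ h ≠ 1
    · obtain ⟨h, hh, hc, h1⟩ := hcen
      have hn' : (Subgroup.zpowers h).Normal := by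
        constructor
        intro x hx g
        obtain ⟨k, rfl⟩ := Subgroup.mem_zpowers_iff.mp hx
        have h2 : Commute g (h ^ k) := Commute.zpow_right (show Commute g h from hc g) k
        have h3 : g * h ^ k * g⁻¹ = h ^ k := by
          rw [h2.eq, mul_assoc, mul_inv_cancel, mul_one]
        rw [h3]
        exact hx
      have h4 := hquot _ hn' (by simpa using h1)
      have h5 : Subgroup.zpowers h ≤ H := by
        rw [Subgroup.zpowers_le]
        exact hh
      rwa [sup_eq_right.mpr h5] at h4
    push Not at hcen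
    -- a minimal nontrivial normal subgroup
    have hne : ∃ N : Subgroup G, N.Normal ∧ N ≠ ⊥ := by
      refine ⟨⊤, inferInstance, ?_⟩
      intro h
      apply hH
      have h1 : Subsingleton (Subgroup G) := subsingleton_of_bot_eq_top h.symm
      exact Subsingleton.elim _ _
    obtain ⟨N, ⟨⟨hNn, hNb⟩, hmin⟩⟩ :
        ∃ N : Subgroup G, Minimal (fun N : Subgroup G => N.Normal ∧ N ≠ ⊥) N := by
      have hfin : {N : Subgroup G | N.Normal ∧ N ≠ ⊥}.Finite := Set.toFinite _
      obtain ⟨N, hN⟩ := hfin.exists_minimal hne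
      exact ⟨N, hN⟩
    by_cases hK : N ⊔ H = ⊤
    · by_cases hab : ∀ a ∈ N, ∀ b ∈ N, a * b = b * a
      · -- abelian
        by_cases hNH : N ≤ H
        · exfalso
          apply hH
          rw [← hK, sup_eq_right.mpr hNH]
        refine ded_compl N H hab hK ?_
        by_contra hcon
        have hnorm : (N ⊓ H).Normal := by
          constructor
          intro x hx g
          have hg : g ∈ ((N ⊔ H : Subgroup G) : Set G) := by rw [hK]; trivial
          rw [Subgroup.normal_mul] at hg
          obtain ⟨m, hm, h, hh, rfl⟩ := hg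
          obtain ⟨hx1, hx2⟩ := hx
          have h1 : h * x * h⁻¹ ∈ N := hNn.conj_mem x hx1 h
          have h2 : m * h * x * (m * h)⁻¹ = h * x * h⁻¹ := by
            have h3 : m * (h * x * h⁻¹) = (h * x * h⁻¹) * m := hab m hm _ h1
            calc m * h * x * (m * h)⁻¹ = m * (h * x * h⁻¹) * m⁻¹ := by group
              _ = h * x * h⁻¹ := by rw [h3]; group
          change m * h * x * (m * h)⁻¹ ∈ N ⊓ H
          rw [h2]
          exact ⟨h1, H.mul_mem (H.mul_mem hh hx2) (H.inv_mem hh)⟩
        have h1 := hmin ⟨hnorm, hcon⟩ inf_le_left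
        exact hNH (le_trans h1 inf_le_right)
      · -- nonabelian
        push Not at hab
        have hcop' : Cop G (Nat.card H) := by
          intro B A _ h1 h2 h3
          exact Nat.Coprime.coprime_dvd_left hm (hcop B A h1 h2 h3)
        obtain ⟨S, hS1, hS2⟩ := exists_factor N H hK hNb (fun M h1 h2 h3 =>
          le_antisymm h2 (hmin ⟨h1, h3⟩ h2)) hab hHc hcop' (fun h hh hc => hcen h hh hc)
        obtain ⟨Φ, hΦ1, hΦ2, hΦ3⟩ := exists_wreath_hom S H hS1
        refine ded_of_wreath_comm S H hHc Φ hΦ1 ?_
        rw [← MonoidHom.range_eq_top, eq_top_iff, ← hK]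
        exact sup_le (hS2 _ hΦ3) hΦ2
    · have hle : H ≤ N ⊔ H := le_sup_right
      refine ded_of_chain hle ?_ (hquot N hNn hNb)
      have hcard : Nat.card (N ⊔ H : Subgroup G) < n := by
        rw [← hn]
        refine lt_of_le_of_ne (Subgroup.card_le_card_group _) ?_
        intro hcon
        exact hK (Subgroup.eq_top_of_card_eq _ hcon)
      have e := Subgroup.subgroupOfEquivOfLe hle
      refine ih _ hcard (N ⊔ H : Subgroup G) rfl _ ?_ m ?_ (hcop.sup N H hHc)
      · rintro a ha b hb
        rw [Subgroup.mem_subgroupOf] at ha hb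
        exact Subtype.ext (hHc _ ha _ hb)
      · rw [Nat.card_congr e.toEquiv]
        exact hm

/-- The Dedekind inequality for commutative subgroups of order prime to the orders of the
automorphism groups of the nonabelian composition factors. -/
theorem ded_comm {G : Type*} [Group G] [Finite G] (H : Subgroup G)
    (hH : ∀ a ∈ H, ∀ b ∈ H, a * b = b * a) (h : Cop G (Nat.card H)) : Ded H :=
  ded_comm_aux _ G rfl H hH _ dvd_rfl h

end Pool.Agent.Helper54.CY
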