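import Mathlib

/-!
# Fractional version of the combinatorial identity of project CY (MP_9fc8a5_nt)

`P` a finite commutative group acting on itself by multiplication, `V : P → Finset P → ℝ`, and
nonnegative weights `s Q E` (`Q` a subgroup, `E` a finite set) such that for every nonempty `F` and
every `π` with `π F ⊆ F` the sum of `s Q (Q F) * ∏ a ∈ F / Q, |F ∩ a|` over the subgroups `Q ∋ π`
is `1`.
-/

set_option autoImplicit false

open scoped BigOperators

namespace Pool.Agent.Helper54.CY

/-- The union of the `Q`-orbits meeting `F`. -/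
noncomputable def hull {P : Type*} [Group P] [Fintype P] (Q : Subgroup P) (F : Finset P) :
    Finset P := by
  classical exact Finset.univ.filter (fun y => ∃ q ∈ Q, ∃ x ∈ F, y = q * x)

/-- The product of the numbers `|F ∩ a|` over the cosets `a` of `Q` meeting `F`. -/
noncomputable def wt {P : Type*} [Group P] (Q : Subgroup P) (F : Finset P) : ℕ := by
  classical exact ∏ a ∈ F.image (fun x : P => (x : P ⧸ Q)),
    (F.filter (fun x : P => (x : P ⧸ Q) = a)).card

theorem mem_hull {P : Type*} [Group P] [Fintype P] (Q : Subgroup P) (F : Finset P) (y : P) :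
    y ∈ hull Q F ↔ ∃ q ∈ Q, ∃ x ∈ F, y = q * x := by
  classical
  unfold hull
  simp

/-- the alternating transform -/
noncomputable def cyT {P : Type*} [Fintype P] [DecidableEq P] (v : Finset P → ℝ)
    (F : Finset P) : ℝ := ∑ B ∈ F.powerset, (-1 : ℝ) ^ B.card * v (Fᶜ ∪ B)

theorem cy_T0 {P : Type*} [Fintype P] [DecidableEq P] (v : Finset P → ℝ)
    (F : Finset P) (ω : P) (hω : ω ∈ F)
    (h : ∀ B, Fᶜ ⊆ B → v (insert ω B) = v B) : cyT v F = 0 := by
  classical
  unfold cyT
  obtain ⟨G, hG, rfl⟩ : ∃ G, ω ∉ G ∧ F = insert ω G :=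
    ⟨F.erase ω, by simp, by rw [Finset.insert_erase hω]⟩
  rw [Finset.sum_powerset_insert hG, ← Finset.sum_add_distrib]
  apply Finset.sum_eq_zero
  intro B hB
  have hB' : B ⊆ G := Finset.mem_powerset.mp hB
  have hωB : ω ∉ B := fun h' => hG (hB' h')
  have e1 : (insert ω G)ᶜ ∪ insert ω B = insert ω ((insert ω G)ᶜ ∪ B) := by
    ext x; simp only [Finset.mem_union, Finset.mem_insert]; tauto
  rw [e1, h _ Finset.subset_union_left, Finset.card_insert_of_notMem hωB, pow_succ]
  ring

theorem cy_T1 {P : Type*} [Fintype P] [DecidableEq P] (v : Finset P → ℝ) :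
    ∀ (n : ℕ) (Y Z : Finset P), Disjoint Y Z → ((Y ∪ Z)ᶜ).card = n →
      ∑ B ∈ Y.powerset, (-1 : ℝ) ^ B.card * v (Z ∪ B)
        = ∑ F ∈ Finset.univ.filter (fun F : Finset P => Y ⊆ F ∧ Disjoint F Z), cyT v F := by
  classical
  intro n
  induction n with
  | zero =>
    intro Y Z hYZ hc
    have hu : Y ∪ Z = Finset.univ := by
      rw [Finset.card_eq_zero] at hc
      have := congrArg (fun s => sᶜ) hc
      simpa using this
    have hF : Finset.univ.filter (fun F : Finset P => Y ⊆ F ∧ Disjoint F Z) = {Y} := by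
      ext F
      simp only [Finset.mem_filter, Finset.mem_univ, true_and, Finset.mem_singleton]
      constructor
      · rintro ⟨h1, h2⟩
        apply Finset.Subset.antisymm _ h1
        intro x hx
        have : x ∈ Y ∪ Z := by rw [hu]; exact Finset.mem_univ x
        rcases Finset.mem_union.mp this with h | h
        · exact h
        · exact absurd h (Finset.disjoint_left.mp h2 hx)
      · rintro rfl
        exact ⟨Finset.Subset.refl _, hYZ⟩
    rw [hF, Finset.sum_singleton]
    unfold cyT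
    have hZ : Z = Yᶜ := by
      ext x
      have hx : x ∈ Y ∪ Z := by rw [hu]; exact Finset.mem_univ x
      rw [Finset.mem_compl]
      constructor
      · intro h h'
        exact Finset.disjoint_left.mp hYZ h' h
      · intro h
        rcases Finset.mem_union.mp hx with h' | h'
        · exact absurd h' h
        · exact h'
    rw [hZ]
  | succ n ih =>
    intro Y Z hYZ hc
    obtain ⟨w, hw⟩ : ((Y ∪ Z)ᶜ).Nonempty := by
      rw [← Finset.card_pos]; omega
    have hw' : w ∉ Y ∧ w ∉ Z := by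
      rw [Finset.mem_compl, Finset.mem_union] at hw; tauto
    have hcard1 : ((insert w Y ∪ Z)ᶜ).card = n := by
      have : (insert w Y ∪ Z)ᶜ = ((Y ∪ Z)ᶜ).erase w := by
        ext x; simp only [Finset.mem_compl, Finset.mem_union, Finset.mem_insert, Finset.mem_erase]
        tauto
      rw [this, Finset.card_erase_of_mem hw, hc]; rfl
    have hcard2 : ((Y ∪ insert w Z)ᶜ).card = n := by
      have : (Y ∪ insert w Z)ᶜ = ((Y ∪ Z)ᶜ).erase w := by
        ext x; simp only [Finset.mem_compl, Finset.mem_union, Finset.mem_insert, Finset.mem_erase]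
        tauto
      rw [this, Finset.card_erase_of_mem hw, hc]; rfl
    have d1 : Disjoint (insert w Y) Z := by
      rw [Finset.disjoint_insert_left]; exact ⟨hw'.2, hYZ⟩
    have d2 : Disjoint Y (insert w Z) := by
      rw [Finset.disjoint_insert_right]; exact ⟨hw'.1, hYZ⟩
    have i1 := ih (insert w Y) Z d1 hcard1
    have i2 := ih Y (insert w Z) d2 hcard2
    have hsplit : Finset.univ.filter (fun F : Finset P => Y ⊆ F ∧ Disjoint F Z)
        = Finset.univ.filter (fun F : Finset P => insert w Y ⊆ F ∧ Disjoint F Z)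
          ∪ Finset.univ.filter (fun F : Finset P => Y ⊆ F ∧ Disjoint F (insert w Z)) := by
      ext F
      simp only [Finset.mem_filter, Finset.mem_univ, true_and, Finset.mem_union,
        Finset.insert_subset_iff, Finset.disjoint_insert_right]
      tauto
    have hdisj : Disjoint
        (Finset.univ.filter (fun F : Finset P => insert w Y ⊆ F ∧ Disjoint F Z))
        (Finset.univ.filter (fun F : Finset P => Y ⊆ F ∧ Disjoint F (insert w Z))) := by
      rw [Finset.disjoint_left]
      intro F h1 h2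
      simp only [Finset.mem_filter, Finset.mem_univ, true_and,
        Finset.insert_subset_iff, Finset.disjoint_insert_right] at h1 h2
      exact h2.2.1 h1.1.1
    rw [hsplit, Finset.sum_union hdisj, ← i1, ← i2, Finset.sum_powerset_insert hw'.1,
      add_assoc, ← Finset.sum_add_distrib]
    rw [left_eq_add]
    apply Finset.sum_eq_zero
    intro B hB
    have hwB : w ∉ B := fun h => hw'.1 (Finset.mem_powerset.mp hB h)
    have e1 : Z ∪ insert w B = insert w Z ∪ B := by
      ext x; simp only [Finset.mem_union, Finset.mem_insert]; tauto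
    rw [e1, Finset.card_insert_of_notMem hwB, pow_succ]
    ring

/-- `Y` is a set of representatives of the `f`-classes of `F` (without `Y ⊆ F`). -/
def IsRep {P R : Type*} [DecidableEq R] (f : P → R) (Y F : Finset P) : Prop :=
  (∀ x ∈ Y, ∀ y ∈ Y, f x = f y → x = y) ∧ Y.image f = F.image f

/-- The number of sets of representatives is the product of the numbers of elements of the
classes. -/
theorem card_rep {P R : Type*} [DecidableEq P] [DecidableEq R] (f : P → R) (F : Finset P)
    [DecidablePred (fun Y => IsRep f Y F)] :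
    (F.powerset.filter (fun Y => IsRep f Y F)).card
      = ∏ a ∈ F.image f, (F.filter (fun x => f x = a)).card := by
  classical
  rw [← Finset.card_pi]
  symm
  refine Finset.card_bij
    (fun t _ => (F.image f).attach.image (fun a => t a.1 a.2)) ?_ ?_ ?_
  · intro t ht
    rw [Finset.mem_pi] at ht
    have h1 : ∀ a (ha : a ∈ F.image f), t a ha ∈ F ∧ f (t a ha) = a := by
      intro a ha
      simpa using ht a ha
    rw [Finset.mem_filter, Finset.mem_powerset]
    refine ⟨?_, ?_, ?_⟩
    · intro y hy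
      obtain ⟨a, _, rfl⟩ := Finset.mem_image.mp hy
      exact (h1 a.1 a.2).1
    · intro x hx y hy hxy
      obtain ⟨a, _, rfl⟩ := Finset.mem_image.mp hx
      obtain ⟨b, _, rfl⟩ := Finset.mem_image.mp hy
      rw [(h1 a.1 a.2).2, (h1 b.1 b.2).2] at hxy
      have : a = b := Subtype.ext hxy
      rw [this]
    · ext a
      constructor
      · intro ha
        obtain ⟨y, hy, rfl⟩ := Finset.mem_image.mp ha
        obtain ⟨b, _, rfl⟩ := Finset.mem_image.mp hy
        rw [(h1 b.1 b.2).2]
        exact b.2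
      · intro ha
        refine Finset.mem_image.mpr ⟨t a ha, ?_, (h1 a ha).2⟩
        exact Finset.mem_image.mpr ⟨⟨a, ha⟩, Finset.mem_attach _ _, rfl⟩
  · intro t ht t' ht' h
    rw [Finset.mem_pi] at ht ht'
    have h1 : ∀ a (ha : a ∈ F.image f), t a ha ∈ F ∧ f (t a ha) = a := by
      intro a ha
      simpa using ht a ha
    have h1' : ∀ a (ha : a ∈ F.image f), t' a ha ∈ F ∧ f (t' a ha) = a := by
      intro a ha
      simpa using ht' a ha
    funext a ha
    have h2 : t a ha ∈ (F.image f).attach.image (fun a => t' a.1 a.2) := by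
      rw [← h]
      exact Finset.mem_image.mpr ⟨⟨a, ha⟩, Finset.mem_attach _ _, rfl⟩
    obtain ⟨b, _, hb⟩ := Finset.mem_image.mp h2
    have h3 : b.1 = a := by
      rw [← (h1' b.1 b.2).2, ← (h1 a ha).2]
      exact congrArg f hb
    have h4 : b = ⟨a, ha⟩ := Subtype.ext h3
    rw [← hb, h4]
  · intro Y hY
    rw [Finset.mem_filter, Finset.mem_powerset] at hY
    obtain ⟨hYF, hinj, him⟩ := hY
    have h1 : ∀ a ∈ F.image f, ∃ y ∈ Y, f y = a := by
      intro a ha
      rw [← him] at ha
      exact Finset.mem_image.mp ha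
    choose r hr1 hr2 using h1
    refine ⟨fun a ha => r a ha, ?_, ?_⟩
    · rw [Finset.mem_pi]
      intro a ha
      rw [Finset.mem_filter]
      exact ⟨hYF (hr1 a ha), hr2 a ha⟩
    · ext y
      constructor
      · intro hy
        obtain ⟨a, _, rfl⟩ := Finset.mem_image.mp hy
        exact hr1 a.1 a.2
      · intro hy
        have h2 : f y ∈ F.image f := Finset.mem_image_of_mem f (hYF hy)
        refine Finset.mem_image.mpr ⟨⟨f y, h2⟩, Finset.mem_attach _ _, ?_⟩
        exact hinj _ (hr1 _ h2) _ hy (hr2 _ h2)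

/-- The sum over the sets `F` with hull `E` is nonnegative. -/
theorem cell_nonneg {P : Type*} [CommGroup P] [Fintype P] [DecidableEq P]
    (V : P → Finset P → ℝ) (Q : Subgroup P) (E : Finset P)
    (H2 : ∀ (Z Y : Finset P), (∀ q ∈ Q, ∀ z ∈ Z, q * z ∈ Z) → Disjoint Y Z →
      (∀ y ∈ Y, ∀ y' ∈ Y, ∀ q ∈ Q, q * y = y' → y = y') → Y.Nonempty →
      0 ≤ ∑ᶠ π : Q, ∑ B ∈ Y.powerset, (-1 : ℝ) ^ B.card * V π (Z ∪ B)) :
    0 ≤ ∑ F ∈ Finset.univ.filter (fun F : Finset P => F.Nonempty ∧ hull Q F = E),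
      (wt Q F : ℝ) * ∑ᶠ π : Q, cyT (V π) F := by
  classical
  have mkeq : ∀ x y : P, ((x : P ⧸ Q) = (y : P ⧸ Q)) ↔ ∃ q ∈ Q, y = q * x := by
    intro x y
    rw [QuotientGroup.eq]
    constructor
    · intro h
      exact ⟨x⁻¹ * y, h, by rw [mul_comm (x⁻¹ * y) x, mul_inv_cancel_left]⟩
    · rintro ⟨q, hq, rfl⟩
      rw [mul_comm q x, inv_mul_cancel_left]
      exact hq
  -- the hull and the image
  have him : ∀ F : Finset P, hull Q F = E →
      F.image (fun x : P => (x : P ⧸ Q)) = E.image (fun x : P => (x : P ⧸ Q)) := by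
    intro F hF
    subst hF
    ext a
    constructor
    · intro ha
      obtain ⟨x, hx, rfl⟩ := Finset.mem_image.mp ha
      refine Finset.mem_image.mpr ⟨x, ?_, rfl⟩
      rw [mem_hull]
      exact ⟨1, Q.one_mem, x, hx, (one_mul x).symm⟩
    · intro ha
      obtain ⟨y, hy, rfl⟩ := Finset.mem_image.mp ha
      rw [mem_hull] at hy
      obtain ⟨q, hq, x, hx, rfl⟩ := hy
      refine Finset.mem_image.mpr ⟨x, hx, ?_⟩
      exact (mkeq _ _).mpr ⟨q, hq, rfl⟩
  -- rewrite the weights as cardinals
  have e1 : ∀ F ∈ Finset.univ.filter (fun F : Finset P => F.Nonempty ∧ hull Q F = E),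
      (wt Q F : ℝ) * ∑ᶠ π : Q, cyT (V π) F
      = ∑ Y ∈ Finset.univ.filter (fun Y : Finset P => IsRep (fun x : P => (x : P ⧸ Q)) Y E),
          if Y ⊆ F then ∑ᶠ π : Q, cyT (V π) F else 0 := by
    intro F hF
    have hF' := (Finset.mem_filter.mp hF).2.2
    have h1 : (wt Q F : ℝ)
        = ((F.powerset.filter (fun Y => IsRep (fun x : P => (x : P ⧸ Q)) Y F)).card : ℝ) := by
      rw [card_rep]
      unfold wt
      congr!
    rw [h1, ← nsmul_eq_mul, ← Finset.sum_const, ← Finset.sum_filter, Finset.filter_filter]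
    apply Finset.sum_congr _ (fun _ _ => rfl)
    ext Y
    simp only [Finset.mem_filter, Finset.mem_powerset, Finset.mem_univ, true_and]
    unfold IsRep
    rw [him F hF']
    tauto
  rw [Finset.sum_congr rfl e1, Finset.sum_comm]
  apply Finset.sum_nonneg
  intro Y hY
  have hY' := (Finset.mem_filter.mp hY).2
  obtain ⟨hinj, himY⟩ := hY'
  rw [← Finset.sum_filter, Finset.filter_filter]
  by_cases hemp : (Finset.univ.filter
      (fun F : Finset P => (F.Nonempty ∧ hull Q F = E) ∧ Y ⊆ F)).Nonempty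
  swap
  · rw [Finset.not_nonempty_iff_eq_empty] at hemp
    rw [hemp, Finset.sum_empty]
  obtain ⟨F0, hF0⟩ := hemp
  have hF0' := (Finset.mem_filter.mp hF0).2
  obtain ⟨⟨hF0n, hF0E⟩, hYF0⟩ := hF0'
  have Est : ∀ q ∈ Q, ∀ x ∈ E, q * x ∈ E := by
    intro q hq x hx
    rw [← hF0E, mem_hull] at hx ⊢
    obtain ⟨q', hq', x', hx', rfl⟩ := hx
    exact ⟨q * q', Q.mul_mem hq hq', x', hx', by rw [mul_assoc]⟩
  have hYE : Y ⊆ E := by
    intro y hy
    rw [← hF0E, mem_hull]
    exact ⟨1, Q.one_mem, y, hYF0 hy, (one_mul y).symm⟩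
  have hYn : Y.Nonempty := by
    obtain ⟨x, hx⟩ := hF0n
    have h1 : (x : P ⧸ Q) ∈ Y.image (fun x : P => (x : P ⧸ Q)) := by
      rw [himY, ← him F0 hF0E]
      exact Finset.mem_image_of_mem (fun x : P => (x : P ⧸ Q)) hx
    obtain ⟨y, hy, _⟩ := Finset.mem_image.mp h1
    exact ⟨y, hy⟩
  have hset : Finset.univ.filter (fun F : Finset P => (F.Nonempty ∧ hull Q F = E) ∧ Y ⊆ F)
      = Finset.univ.filter (fun F : Finset P => Y ⊆ F ∧ Disjoint F Eᶜ) := by
    ext F
    simp only [Finset.mem_filter, Finset.mem_univ, true_and]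
    rw [← Finset.subset_compl_iff_disjoint_right, compl_compl]
    constructor
    · rintro ⟨⟨_, h⟩, h'⟩
      refine ⟨h', ?_⟩
      intro x hx
      rw [← h, mem_hull]
      exact ⟨1, Q.one_mem, x, hx, (one_mul x).symm⟩
    · rintro ⟨h1, h2⟩
      refine ⟨⟨hYn.mono h1, ?_⟩, h1⟩
      ext z
      rw [mem_hull]
      constructor
      · rintro ⟨q, hq, x, hx, rfl⟩
        exact Est q hq x (h2 hx)
      · intro hz
        have h3 : (z : P ⧸ Q) ∈ Y.image (fun x : P => (x : P ⧸ Q)) := by
          rw [himY]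
          exact Finset.mem_image_of_mem (fun x : P => (x : P ⧸ Q)) hz
        obtain ⟨y, hy, hyz⟩ := Finset.mem_image.mp h3
        obtain ⟨q, hq, h4⟩ := (mkeq y z).mp hyz
        exact ⟨q, hq, y, h1 hy, h4⟩
  rw [hset]
  have hdis : Disjoint Y Eᶜ := by
    rw [← Finset.subset_compl_iff_disjoint_right, compl_compl]
    exact hYE
  have h2 := H2 Eᶜ Y ?_ hdis ?_ hYn
  · have : Fintype Q := Fintype.ofFinite Q
    rw [finsum_eq_sum_of_fintype] at h2
    have h3 : ∑ F ∈ Finset.univ.filter (fun F : Finset P => Y ⊆ F ∧ Disjoint F Eᶜ),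
        ∑ᶠ π : Q, cyT (V π) F
        = ∑ π : Q, ∑ B ∈ Y.powerset, (-1 : ℝ) ^ B.card * V π (Eᶜ ∪ B) := by
      have h4 : ∀ F ∈ Finset.univ.filter (fun F : Finset P => Y ⊆ F ∧ Disjoint F Eᶜ),
          ∑ᶠ π : Q, cyT (V π) F = ∑ π : Q, cyT (V π) F :=
        fun F _ => finsum_eq_sum_of_fintype _
      rw [Finset.sum_congr rfl h4, Finset.sum_comm]
      refine Finset.sum_congr rfl fun π _ => ?_
      exact (cy_T1 (V π) _ Y Eᶜ hdis rfl).symm
    rw [h3]
    exact h2
  · intro q hq z hz
    rw [Finset.mem_compl] at hz ⊢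
    intro h
    apply hz
    have := Est q⁻¹ (Q.inv_mem hq) _ h
    rwa [inv_mul_cancel_left] at this
  · intro y hy y' hy' q hq h
    exact hinj y hy y' hy' ((mkeq y y').mpr ⟨q, hq, h.symm⟩)

/-- The fractional version of `comb`: the conclusion holds as soon as there are nonnegative
weights `s Q E` which make the intervals a fractional partition. -/
theorem comb_frac {P : Type*} [CommGroup P] [Fintype P] [DecidableEq P] (V : P → Finset P → ℝ)
    (s : Subgroup P → Finset P → ℝ) (hs : ∀ Q E, 0 ≤ s Q E)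
    (hsum : ∀ F : Finset P, F.Nonempty → ∀ π : P, (∀ x ∈ F, π * x ∈ F) →
      ∑ᶠ Q : {Q : Subgroup P // π ∈ Q}, s Q (hull (Q : Subgroup P) F) *
        (wt (Q : Subgroup P) F : ℝ) = 1)
    (H1 : ∀ π ω B, π * ω ∈ B → V π (insert ω B) = V π B)
    (H2 : ∀ (Q : Subgroup P) (Z Y : Finset P), (∀ q ∈ Q, ∀ z ∈ Z, q * z ∈ Z) → Disjoint Y Z →
      (∀ y ∈ Y, ∀ y' ∈ Y, ∀ q ∈ Q, q * y = y' → y = y') → Y.Nonempty →
      0 ≤ ∑ᶠ π : Q, ∑ B ∈ Y.powerset, (-1 : ℝ) ^ B.card * V π (Z ∪ B)) :
    0 ≤ ∑ π : P, (V π ∅ - V π Finset.univ) := by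
  classical
  have : Fintype (Subgroup P) := Fintype.ofFinite _
  have htot : ∀ π, V π ∅ - V π Finset.univ
      = ∑ F ∈ Finset.univ.filter (fun F : Finset P => F.Nonempty), cyT (V π) F := by
    intro π
    have h0 := cy_T1 (V π) _ ∅ ∅ (Finset.disjoint_empty_left _) rfl
    simp only [Finset.powerset_empty, Finset.sum_singleton, Finset.card_empty, pow_zero, one_mul,
      Finset.union_empty] at h0
    have h1 : cyT (V π) ∅ = V π Finset.univ := by
      unfold cyT
      simp
    have h2 : (Finset.univ.filter (fun F : Finset P => ∅ ⊆ F ∧ Disjoint F ∅))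
        = insert ∅ (Finset.univ.filter (fun F : Finset P => F.Nonempty)) := by
      ext F
      simp only [Finset.mem_filter, Finset.mem_univ, true_and, Finset.mem_insert,
        Finset.empty_subset, Finset.disjoint_empty_right, and_self]
      rcases Finset.eq_empty_or_nonempty F with h | h
      · simp [h]
      · simp [h]
    rw [h0, h2, Finset.sum_insert (by simp), h1]
    ring
  -- insert the weights
  have hins : ∀ π : P, ∀ F ∈ Finset.univ.filter (fun F : Finset P => F.Nonempty),
      cyT (V π) F = ∑ Q : Subgroup P,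
        if π ∈ Q then s Q (hull Q F) * (wt Q F : ℝ) * cyT (V π) F else 0 := by
    intro π F hF
    have hFn : F.Nonempty := (Finset.mem_filter.mp hF).2
    by_cases hst : ∀ ω ∈ F, π * ω ∈ F
    · have h1 := hsum F hFn π hst
      have : Fintype {Q : Subgroup P // π ∈ Q} := Fintype.ofFinite _
      rw [finsum_eq_sum_of_fintype] at h1
      rw [← Finset.sum_filter, ← Finset.sum_mul]
      rw [← Finset.sum_subtype (p := fun Q : Subgroup P => π ∈ Q)
        (Finset.univ.filter (fun Q : Subgroup P => π ∈ Q)) (fun x => by simp)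
        (fun Q => s Q (hull Q F) * (wt Q F : ℝ))] at h1
      rw [h1, one_mul]
    · push Not at hst
      obtain ⟨ω, hω, hn⟩ := hst
      have h0 : cyT (V π) F = 0 :=
        cy_T0 (V π) F ω hω (fun B hB => H1 π ω B (hB (Finset.mem_compl.mpr hn)))
      rw [h0]
      simp
  rw [Finset.sum_congr rfl (fun π _ => (htot π).trans (Finset.sum_congr rfl (hins π)))]
  have hre : ∑ π : P, ∑ F ∈ Finset.univ.filter (fun F : Finset P => F.Nonempty),
      ∑ Q : Subgroup P, (if π ∈ Q then s Q (hull Q F) * (wt Q F : ℝ) * cyT (V π) F else 0)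
      = ∑ Q : Subgroup P, ∑ F ∈ Finset.univ.filter (fun F : Finset P => F.Nonempty),
        s Q (hull Q F) * ((wt Q F : ℝ) * ∑ᶠ π : Q, cyT (V π) F) := by
    have h1 : ∀ Q : Subgroup P, ∀ F : Finset P,
        s Q (hull Q F) * ((wt Q F : ℝ) * ∑ᶠ π : Q, cyT (V π) F)
        = ∑ π : P, (if π ∈ Q then s Q (hull Q F) * (wt Q F : ℝ) * cyT (V π) F else 0) := by
      intro Q F
      have : Fintype Q := Fintype.ofFinite Q
      rw [finsum_eq_sum_of_fintype, ← Finset.sum_filter, ← mul_assoc, Finset.mul_sum]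
      rw [← Finset.sum_subtype (p := fun π : P => π ∈ Q)
        (Finset.univ.filter (fun π : P => π ∈ Q)) (fun x => by simp)
        (fun π => s Q (hull Q F) * (wt Q F : ℝ) * cyT (V π) F)]
    simp_rw [h1]
    rw [Finset.sum_comm]
    rw [Finset.sum_congr rfl (fun F _ => Finset.sum_comm)]
    rw [Finset.sum_comm]
  rw [hre]
  apply Finset.sum_nonneg
  intro Q _
  rw [← Finset.sum_fiberwise_of_maps_to (t := Finset.univ) (g := fun F => hull Q F)
    (fun F _ => Finset.mem_univ _)]
  apply Finset.sum_nonneg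
  intro E _
  rw [Finset.filter_filter]
  have h3 := cell_nonneg V Q E (fun Z Y => H2 Q Z Y)
  have h4 : ∑ F ∈ Finset.univ.filter (fun F : Finset P => F.Nonempty ∧ hull Q F = E),
      s Q (hull Q F) * ((wt Q F : ℝ) * ∑ᶠ π : Q, cyT (V π) F)
      = s Q E * ∑ F ∈ Finset.univ.filter (fun F : Finset P => F.Nonempty ∧ hull Q F = E),
        (wt Q F : ℝ) * ∑ᶠ π : Q, cyT (V π) F := by
    rw [Finset.mul_sum]
    refine Finset.sum_congr rfl fun F hF => ?_
    rw [(Finset.mem_filter.mp hF).2.2]
  rw [h4]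
  exact mul_nonneg (hs Q E) h3

end Pool.Agent.Helper54.CY
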